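import Pool.Agent.W670.ML.Defs2

set_option autoImplicit false

namespace Pool.Agent.W379.ML2.IQ
open Pool.Agent.W670.ML

/-- number of points in the cycle of `a`. -/
noncomputable def S {n : ℕ} (g : Equiv.Perm (Fin n)) (a : Fin n) : ℕ := by
  classical exact (Finset.univ.filter (fun b => g.SameCycle a b)).card

lemma S_pos {n : ℕ} (g : Equiv.Perm (Fin n)) (a : Fin n) : 1 ≤ S g a := by
  classical
  unfold S
  rw [Nat.one_le_iff_ne_zero, ← Nat.pos_iff_ne_zero, Finset.card_pos]
  exact ⟨a, by simpa using Equiv.Perm.SameCycle.refl g a⟩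

lemma S_fixed {n : ℕ} (g : Equiv.Perm (Fin n)) (a : Fin n) (h : a ∉ g.support) : S g a = 1 := by
  classical
  unfold S
  have hfix : g a = a := by simpa using h
  rw [Finset.card_eq_one]
  refine ⟨a, ?_⟩
  ext b
  simp only [Finset.mem_filter, Finset.mem_univ, true_and, Finset.mem_singleton]
  constructor
  · rintro ⟨i, hi⟩
    rw [← hi]
    exact (Equiv.Perm.zpow_apply_eq_self_of_apply_eq_self hfix i)
  · rintro rfl
    exact Equiv.Perm.SameCycle.refl _ _

lemma S_cycle {n : ℕ} (g c : Equiv.Perm (Fin n)) (hc : c ∈ g.cycleFactorsFinset) (a : Fin n)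
    (h : a ∈ c.support) : S g a = c.support.card := by
  classical
  have hca : c = g.cycleOf a := Equiv.Perm.cycle_is_cycleOf h hc
  have hag : a ∈ g.support :=
    (Equiv.Perm.mem_support_iff_mem_support_of_mem_cycleFactorsFinset).2 ⟨c, hc, h⟩
  unfold S
  rw [hca]
  congr 1
  ext b
  rw [Equiv.Perm.mem_support_cycleOf_iff]
  simp [hag]

lemma ind_eq {n : ℕ} (g : Equiv.Perm (Fin n)) :
    (ind g : ℚ) = ∑ a, (1 - 1 / (S g a : ℚ)) := by
  classical
  have h1 : g.cycleType.sum = ∑ c ∈ g.cycleFactorsFinset, c.support.card := by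
    rw [Equiv.Perm.cycleType_def]; rfl
  have h2 : Multiset.card g.cycleType = g.cycleFactorsFinset.card := by
    rw [Equiv.Perm.cycleType_def, Multiset.card_map]; rfl
  have hge : ∀ c ∈ g.cycleFactorsFinset, 2 ≤ c.support.card := by
    intro c hc
    exact (Equiv.Perm.mem_cycleFactorsFinset_iff.1 hc).1.two_le_card_support
  have hle : g.cycleFactorsFinset.card ≤ ∑ c ∈ g.cycleFactorsFinset, c.support.card := by
    rw [Finset.card_eq_sum_ones]
    refine Finset.sum_le_sum fun c hc => ?_
    have := hge c hc; omega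
  have h3 : (ind g : ℚ) = ∑ c ∈ g.cycleFactorsFinset, ((c.support.card : ℚ) - 1) := by
    unfold ind
    rw [h1, h2, Nat.cast_sub hle, Nat.cast_sum, Finset.sum_sub_distrib]
    simp
  have h4 : ∑ a, (1 - 1 / (S g a : ℚ)) = ∑ a ∈ g.support, (1 - 1 / (S g a : ℚ)) := by
    symm
    apply Finset.sum_subset (Finset.subset_univ _)
    intro a _ ha
    rw [S_fixed g a ha]; simp
  have h5 : g.support = g.cycleFactorsFinset.biUnion (fun c => c.support) := by
    ext a
    rw [Finset.mem_biUnion]
    exact Equiv.Perm.mem_support_iff_mem_support_of_mem_cycleFactorsFinset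
  rw [h3, h4, h5, Finset.sum_biUnion]
  · refine Finset.sum_congr rfl fun c hc => ?_
    rw [Finset.sum_congr rfl (fun a ha => by rw [S_cycle g c hc a ha])]
    rw [Finset.sum_const, nsmul_eq_mul]
    have h0 : (c.support.card : ℚ) ≠ 0 := by
      have := hge c hc
      exact_mod_cast (by omega : c.support.card ≠ 0)
    field_simp
  · intro c hc d hd hcd
    have hdis := Equiv.Perm.cycleFactorsFinset_pairwise_disjoint g hc hd hcd
    exact Equiv.Perm.Disjoint.disjoint_support hdis

lemma S_le {k n : ℕ} (p : Fin k → Fin n) (τ : Equiv.Perm (Fin k)) (g : Equiv.Perm (Fin n))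
    (h : ∀ a, p (τ a) = g (p a)) (a : Fin k) : S g (p a) ≤ S τ a := by
  classical
  have hsymm : ∀ a, p (τ.symm a) = g.symm (p a) := by
    intro a
    have := h (τ.symm a)
    rw [Equiv.apply_symm_apply] at this
    rw [this, Equiv.symm_apply_apply]
  have hz : ∀ (i : ℤ) (a : Fin k), p ((τ ^ i) a) = (g ^ i) (p a) := by
    intro i
    induction i using Int.induction_on with
    | zero => intro a; simp
    | succ i ih =>
      intro a
      rw [zpow_add_one, zpow_add_one, Equiv.Perm.mul_apply, Equiv.Perm.mul_apply, ih, h]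
    | pred i ih =>
      intro a
      rw [zpow_sub_one, zpow_sub_one, Equiv.Perm.mul_apply, Equiv.Perm.mul_apply, ih]
      congr 1
      exact hsymm a
  unfold S
  refine Finset.card_le_card_of_surjOn p ?_
  intro b hb
  simp only [Finset.coe_filter, Finset.mem_univ, true_and, Set.mem_setOf_eq] at hb
  obtain ⟨i, hi⟩ := hb
  refine ⟨(τ ^ i) a, ?_, ?_⟩
  · simp only [Finset.coe_filter, Finset.mem_univ, true_and, Set.mem_setOf_eq]
    exact ⟨i, rfl⟩
  · rw [hz, hi]

theorem iq : S_IQ := by
  classical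
  intro k n f p hp τ g h
  have hQ : ((f * ind g : ℕ) : ℚ) ≤ (ind τ : ℚ) := by
    rw [Nat.cast_mul, ind_eq g, ind_eq τ]
    have h1 : (f : ℚ) * ∑ b, (1 - 1 / (S g b : ℚ)) = ∑ a, (1 - 1 / (S g (p a) : ℚ)) := by
      rw [Finset.mul_sum]
      rw [← Finset.sum_fiberwise Finset.univ p (fun a => (1 - 1 / (S g (p a) : ℚ)))]
      refine Finset.sum_congr rfl fun b _ => ?_
      rw [Finset.sum_congr rfl (g := fun _ => (1 - 1 / (S g b : ℚ)))]
      · rw [Finset.sum_const, hp b, nsmul_eq_mul]
      · intro a ha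
        rw [(Finset.mem_filter.1 ha).2]
    rw [h1]
    refine Finset.sum_le_sum fun a _ => ?_
    have h2 : (S g (p a) : ℚ) ≤ (S τ a : ℚ) := by exact_mod_cast S_le p τ g h a
    have h3 : (1 : ℚ) ≤ (S g (p a) : ℚ) := by exact_mod_cast S_pos g (p a)
    have h4 : 1 / (S τ a : ℚ) ≤ 1 / (S g (p a) : ℚ) :=
      one_div_le_one_div_of_le (by linarith) h2
    linarith
  exact_mod_cast hQ

end Pool.Agent.W379.ML2.IQ
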